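import Mathlib

set_option autoImplicit false

/-!
# Equicontinuity does not propagate from a Hartogs figure to the polydisk

The targets are the complex projective spaces `ℙ^N`, `N ≥ 2`, with the Fubini–Study distance.
-/

open scoped LinearAlgebra.Projectivization
open Set

namespace Pool.Agent.Results.MP_7ec995_an.ProjectiveSpace

/-- The complex projective space `ℙ^N`, the set of lines of the Hermitian space `ℂ^{N+1}`. -/
abbrev PN (N : ℕ) : Type := ℙ ℂ (EuclideanSpace ℂ (Fin (N + 1)))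

/-- The Fubini–Study (geodesic) distance `arccos (|⟨x, y⟩| / (‖x‖ ‖y‖))` of the points `[x]`,
`[y]` of `ℙ^N`. -/
noncomputable def fsDist {N : ℕ} (a b : PN N) : ℝ :=
  Real.arccos (‖(inner ℂ a.rep b.rep : ℂ)‖ / (‖a.rep‖ * ‖b.rep‖))

/-- A map `f` from the open set `D` of a complex normed space to `ℙ^N` is holomorphic if locally it
is `z ↦ [F z]` with `F` holomorphic and without zeros. -/
def IsHolomorphicMap {E : Type} [NormedAddCommGroup E] [NormedSpace ℂ E] {N : ℕ}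
    (D : Set E) (f : E → PN N) : Prop :=
  ∀ p ∈ D, ∃ U : Set E, IsOpen U ∧ p ∈ U ∧ ∃ F : E → EuclideanSpace ℂ (Fin (N + 1)),
    DifferentiableOn ℂ F U ∧ ∀ z ∈ U, ∃ h : F z ≠ 0, f z = Projectivization.mk ℂ (F z) h

/-- The open polydisk `Δ^n(ρ)` of `ℂ^n`. -/
def polydisk (n : ℕ) (ρ : ℝ) : Set (Fin n → ℂ) := {z | ∀ i, ‖z i‖ < ρ}

/-- The unit polydisk `Δ^{n+1}` of `ℂ^{n+1} = ℂ^n × ℂ`. -/
def unitPolydisk (n : ℕ) : Set ((Fin n → ℂ) × ℂ) := {p | p.1 ∈ polydisk n 1 ∧ ‖p.2‖ < 1}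

/-- The Hartogs figure `H_n^1(r) = [Δ^n(1-r) × Δ^1] ∪ [Δ^n × A^1(r,1)]`. -/
def hartogs (n : ℕ) (r : ℝ) : Set ((Fin n → ℂ) × ℂ) :=
  {p | p.1 ∈ polydisk n (1 - r) ∧ ‖p.2‖ < 1} ∪ {p | p.1 ∈ polydisk n 1 ∧ r < ‖p.2‖ ∧ ‖p.2‖ < 1}

/-- The family `𝓕` of maps to `ℙ^N` is equicontinuous on `U`. -/
def EquicontOn {E : Type} [NormedAddCommGroup E] {N : ℕ} (𝓕 : Set (E → PN N)) (U : Set E) : Prop :=
  ∀ p ∈ U, ∀ ε : ℝ, 0 < ε → ∃ δ : ℝ, 0 < δ ∧
    ∀ f ∈ 𝓕, ∀ z ∈ U, ‖z - p‖ < δ → fsDist (f z) (f p) < ε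

theorem fsDist_mk {N : ℕ} (x y : EuclideanSpace ℂ (Fin (N + 1))) (hx : x ≠ 0) (hy : y ≠ 0) :
    fsDist (Projectivization.mk ℂ x hx) (Projectivization.mk ℂ y hy) =
      Real.arccos (‖(inner ℂ x y : ℂ)‖ / (‖x‖ * ‖y‖)) := by
  obtain ⟨a, ha⟩ := Projectivization.exists_smul_eq_mk_rep ℂ x hx
  obtain ⟨b, hb⟩ := Projectivization.exists_smul_eq_mk_rep ℂ y hy
  unfold fsDist
  rw [← ha, ← hb]
  congr 1
  have ha0 : (‖(a : ℂ)‖) ≠ 0 := by simp
  have hb0 : (‖(b : ℂ)‖) ≠ 0 := by simp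
  have h1 : (inner ℂ (a • x) (b • y) : ℂ) = (starRingEnd ℂ) (a : ℂ) * ((b : ℂ) * inner ℂ x y) := by
    have e1 : a • x = (a : ℂ) • x := rfl
    have e2 : b • y = (b : ℂ) • y := rfl
    rw [e1, e2, inner_smul_left, inner_smul_right]
  have h2 : ‖a • x‖ = ‖(a : ℂ)‖ * ‖x‖ := by
    have e1 : a • x = (a : ℂ) • x := rfl
    rw [e1, norm_smul]
  have h3 : ‖b • y‖ = ‖(b : ℂ)‖ * ‖y‖ := by
    have e1 : b • y = (b : ℂ) • y := rfl
    rw [e1, norm_smul]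
  rw [h1, h2, h3, norm_mul, norm_mul, RCLike.norm_conj]
  have hx0 : ‖x‖ ≠ 0 := norm_ne_zero_iff.mpr hx
  have hy0 : ‖y‖ ≠ 0 := norm_ne_zero_iff.mpr hy
  field_simp

/-- The lifts. -/
noncomputable def lift (n N : ℕ) (hn : 1 ≤ n) (hN : 2 ≤ N) (a : ℂ) (k : ℕ)
    (p : (Fin n → ℂ) × ℂ) : EuclideanSpace ℂ (Fin (N + 1)) :=
  EuclideanSpace.single ⟨0, by omega⟩ (p.1 ⟨0, by omega⟩ - a) +
    EuclideanSpace.single ⟨1, by omega⟩ p.2 +
    EuclideanSpace.single ⟨2, by omega⟩ ((1 : ℂ) / (k + 1))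

theorem lift_inner (n N : ℕ) (hn : 1 ≤ n) (hN : 2 ≤ N) (a : ℂ) (k : ℕ)
    (p q : (Fin n → ℂ) × ℂ) :
    (inner ℂ (lift n N hn hN a k p) (lift n N hn hN a k q) : ℂ) =
      (starRingEnd ℂ) (p.1 ⟨0, by omega⟩ - a) * (q.1 ⟨0, by omega⟩ - a) +
      (starRingEnd ℂ) p.2 * q.2 + (starRingEnd ℂ) ((1 : ℂ) / (k + 1)) * ((1 : ℂ) / (k + 1)) := by
  simp only [lift, inner_add_left, inner_add_right, EuclideanSpace.inner_single_left,
    PiLp.single_apply]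
  simp

theorem lift_norm_sq (n N : ℕ) (hn : 1 ≤ n) (hN : 2 ≤ N) (a : ℂ) (k : ℕ)
    (p : (Fin n → ℂ) × ℂ) :
    ‖lift n N hn hN a k p‖ ^ 2 =
      ‖p.1 ⟨0, by omega⟩ - a‖ ^ 2 + ‖p.2‖ ^ 2 + ((1 : ℝ) / (k + 1)) ^ 2 := by
  have h := lift_inner n N hn hN a k p p
  rw [inner_self_eq_norm_sq_to_K] at h
  have h1 : ∀ z : ℂ, (starRingEnd ℂ) z * z = ((‖z‖ ^ 2 : ℝ) : ℂ) := fun z => by
    rw [mul_comm, Complex.mul_conj, Complex.normSq_eq_norm_sq]
  rw [h1, h1, h1] at h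
  have h2 : ‖(1 : ℂ) / (k + 1)‖ = (1 : ℝ) / (k + 1) := by
    rw [norm_div, norm_one]
    congr 1
    have : ((k : ℂ) + 1) = ((k + 1 : ℕ) : ℂ) := by push_cast; ring
    rw [this, Complex.norm_natCast]
    push_cast; ring
  rw [h2] at h
  have h3 : ((‖lift n N hn hN a k p‖ ^ 2 : ℝ) : ℂ) =
      ((‖p.1 ⟨0, by omega⟩ - a‖ ^ 2 + ‖p.2‖ ^ 2 + ((1 : ℝ) / (k + 1)) ^ 2 : ℝ) : ℂ) := by
    rw [Complex.ofReal_add, Complex.ofReal_add, ← h, Complex.ofReal_pow]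
    rfl
  exact Complex.ofReal_injective h3

theorem lift_ne_zero (n N : ℕ) (hn : 1 ≤ n) (hN : 2 ≤ N) (a : ℂ) (k : ℕ)
    (p : (Fin n → ℂ) × ℂ) : lift n N hn hN a k p ≠ 0 := by
  intro h
  have h1 := lift_norm_sq n N hn hN a k p
  rw [h, norm_zero] at h1
  have h2 : 0 < ((1 : ℝ) / (k + 1)) ^ 2 := by positivity
  have h3 : 0 ≤ ‖p.1 ⟨0, by omega⟩ - a‖ ^ 2 := by positivity
  have h4 : 0 ≤ ‖p.2‖ ^ 2 := by positivity
  have h5 : (0 : ℝ) ^ 2 = 0 := by norm_num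
  rw [h5] at h1
  linarith

theorem lift_sub (n N : ℕ) (hn : 1 ≤ n) (hN : 2 ≤ N) (a : ℂ) (k : ℕ)
    (p q : (Fin n → ℂ) × ℂ) :
    ‖lift n N hn hN a k p - lift n N hn hN a k q‖ ≤ 2 * ‖p - q‖ := by
  have h : lift n N hn hN a k p - lift n N hn hN a k q =
      EuclideanSpace.single ⟨0, by omega⟩ (p.1 ⟨0, by omega⟩ - q.1 ⟨0, by omega⟩) +
      EuclideanSpace.single ⟨1, by omega⟩ (p.2 - q.2) := by
    ext i
    simp only [lift, PiLp.add_apply, PiLp.sub_apply, PiLp.single_apply]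
    split_ifs <;> ring
  rw [h]
  refine (norm_add_le _ _).trans ?_
  rw [PiLp.norm_single, PiLp.norm_single]
  have h1 : ‖p.1 ⟨0, by omega⟩ - q.1 ⟨0, by omega⟩‖ ≤ ‖p - q‖ := by
    have : ‖(p.1 - q.1) (⟨0, by omega⟩ : Fin n)‖ ≤ ‖p.1 - q.1‖ := norm_le_pi_norm _ _
    exact this.trans (norm_fst_le (p - q))
  have h2 : ‖p.2 - q.2‖ ≤ ‖p - q‖ := norm_snd_le (p - q)
  linarith

theorem lift_differentiable (n N : ℕ) (hn : 1 ≤ n) (hN : 2 ≤ N) (a : ℂ) (k : ℕ) :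
    Differentiable ℂ (lift n N hn hN a k) := by
  rw [differentiable_euclidean]
  intro i
  simp only [lift, PiLp.add_apply, PiLp.single_apply]
  split_ifs <;> fun_prop

/-- The family. -/
noncomputable def fam (n N : ℕ) (hn : 1 ≤ n) (hN : 2 ≤ N) (a : ℂ) (k : ℕ)
    (p : (Fin n → ℂ) × ℂ) : PN N :=
  Projectivization.mk ℂ (lift n N hn hN a k p) (lift_ne_zero n N hn hN a k p)

theorem cos_ge {N : ℕ} (x y : EuclideanSpace ℂ (Fin (N + 1))) (c d : ℝ) (hc : 0 < c)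
    (hx : c ≤ ‖x‖) (hy : c ≤ ‖y‖) (hd : ‖x - y‖ ≤ d) :
    1 - d ^ 2 / (2 * c ^ 2) ≤ ‖(inner ℂ x y : ℂ)‖ / (‖x‖ * ‖y‖) := by
  have hxp : 0 < ‖x‖ := hc.trans_le hx
  have hyp : 0 < ‖y‖ := hc.trans_le hy
  have h1 : ‖x - y‖ ^ 2 = ‖x‖ ^ 2 - 2 * (inner ℂ x y : ℂ).re + ‖y‖ ^ 2 := by
    have := norm_sub_sq (𝕜 := ℂ) x y
    simpa using this
  have h2 : (inner ℂ x y : ℂ).re ≤ ‖(inner ℂ x y : ℂ)‖ := Complex.re_le_norm _
  have h3 : ‖x - y‖ ^ 2 ≤ d ^ 2 := by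
    have := norm_nonneg (x - y)
    nlinarith
  have h4 : ‖x‖ * ‖y‖ - d ^ 2 / 2 ≤ ‖(inner ℂ x y : ℂ)‖ := by
    nlinarith [sq_nonneg (‖x‖ - ‖y‖)]
  rw [le_div_iff₀ (by positivity)]
  have h5 : c ^ 2 ≤ ‖x‖ * ‖y‖ := by nlinarith
  have h6 : (1 - d ^ 2 / (2 * c ^ 2)) * (‖x‖ * ‖y‖) =
      ‖x‖ * ‖y‖ - (d ^ 2 / 2) * ((‖x‖ * ‖y‖) / c ^ 2) := by
    field_simp
  rw [h6]
  have h7 : 1 ≤ (‖x‖ * ‖y‖) / c ^ 2 := by
    rw [le_div_iff₀ (by positivity)]
    linarith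
  have h8 : 0 ≤ d ^ 2 / 2 := by positivity
  nlinarith

theorem lift_norm_ge (n N : ℕ) (hn : 1 ≤ n) (hN : 2 ≤ N) (r : ℝ) (hr : 0 < r) (hr1 : r < 1)
    (k : ℕ) (p : (Fin n → ℂ) × ℂ) (hp : p ∈ hartogs n r) :
    r / 2 ≤ ‖lift n N hn hN ((1 - r / 2 : ℝ) : ℂ) k p‖ := by
  have h := lift_norm_sq n N hn hN ((1 - r / 2 : ℝ) : ℂ) k p
  have h0 : 0 < ((1 : ℝ) / (k + 1)) ^ 2 := by positivity
  have h3 : 0 ≤ ‖p.1 ⟨0, by omega⟩ - ((1 - r / 2 : ℝ) : ℂ)‖ ^ 2 := by positivity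
  have h4 : 0 ≤ ‖p.2‖ ^ 2 := by positivity
  refine le_of_sq_le_sq ?_ (norm_nonneg _)
  rw [h]
  rcases hp with ⟨h1, _⟩ | ⟨_, h2, _⟩
  · have h5 : ‖p.1 ⟨0, by omega⟩‖ < 1 - r := h1 _
    have h6 : ‖((1 - r / 2 : ℝ) : ℂ)‖ = 1 - r / 2 := by
      rw [Complex.norm_real, Real.norm_of_nonneg (by linarith)]
    have h7 : ‖((1 - r / 2 : ℝ) : ℂ)‖ - ‖p.1 ⟨0, by omega⟩‖ ≤
        ‖p.1 ⟨0, by omega⟩ - ((1 - r / 2 : ℝ) : ℂ)‖ := by
      rw [norm_sub_rev]; exact norm_sub_norm_le _ _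
    have h8 : r / 2 ≤ ‖p.1 ⟨0, by omega⟩ - ((1 - r / 2 : ℝ) : ℂ)‖ := by
      rw [h6] at h7; linarith
    nlinarith
  · nlinarith

theorem result (n N : ℕ) (hn : 1 ≤ n) (hN : 2 ≤ N) (r : ℝ) (hr : 0 < r) (hr1 : r < 1) :
    ∃ 𝓕 : Set ((Fin n → ℂ) × ℂ → PN N),
      (∀ f ∈ 𝓕, IsHolomorphicMap univ f) ∧ EquicontOn 𝓕 (hartogs n r) ∧
      ∃ p ∈ unitPolydisk n, ∃ ε : ℝ, 0 < ε ∧ ∀ δ : ℝ, 0 < δ →
        ∃ f ∈ 𝓕, ∃ z ∈ unitPolydisk n, ‖z - p‖ < δ ∧ ε ≤ fsDist (f z) (f p) := by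
  set a : ℂ := ((1 - r / 2 : ℝ) : ℂ) with ha
  refine ⟨range (fam n N hn hN a), ?_, ?_, ?_⟩
  · rintro f ⟨k, rfl⟩ p _
    exact ⟨univ, isOpen_univ, mem_univ _, lift n N hn hN a k,
      (lift_differentiable n N hn hN a k).differentiableOn,
      fun z _ => ⟨lift_ne_zero n N hn hN a k z, rfl⟩⟩
  · intro p hp ε hε
    set e : ℝ := min ε 1 with he
    have he0 : 0 < e := lt_min hε one_pos
    have he1 : e ≤ 1 := min_le_right _ _
    have hepi : e ≤ Real.pi := he1.trans (by linarith [Real.pi_gt_three])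
    have hcos : Real.cos e < 1 := by
      have := Real.cos_lt_cos_of_nonneg_of_le_pi (le_refl 0) hepi he0
      rwa [Real.cos_zero] at this
    have hs : 0 < Real.sqrt (1 - Real.cos e) := Real.sqrt_pos.mpr (by linarith)
    refine ⟨r / 4 * Real.sqrt (1 - Real.cos e), by positivity, ?_⟩
    rintro f ⟨k, rfl⟩ z hz hzp
    have h1 := cos_ge (lift n N hn hN a k z) (lift n N hn hN a k p) (r / 2) (2 * ‖z - p‖)
      (by positivity) (lift_norm_ge n N hn hN r hr hr1 k z hz)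
      (lift_norm_ge n N hn hN r hr hr1 k p hp) (lift_sub n N hn hN a k z p)
    have h2 : Real.cos e < ‖(inner ℂ (lift n N hn hN a k z) (lift n N hn hN a k p) : ℂ)‖ /
        (‖lift n N hn hN a k z‖ * ‖lift n N hn hN a k p‖) := by
      refine lt_of_lt_of_le ?_ h1
      have h3 : ‖z - p‖ ^ 2 < (r / 4 * Real.sqrt (1 - Real.cos e)) ^ 2 := by
        have := norm_nonneg (z - p)
        nlinarith
      rw [mul_pow, Real.sq_sqrt (by linarith)] at h3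
      have h4 : (2 * ‖z - p‖) ^ 2 / (2 * (r / 2) ^ 2) = ‖z - p‖ ^ 2 * (8 / r ^ 2) := by
        field_simp; ring
      rw [h4]
      have h5 : ‖z - p‖ ^ 2 * (8 / r ^ 2) ≤ ((r / 4) ^ 2 * (1 - Real.cos e)) * (8 / r ^ 2) :=
        mul_le_mul_of_nonneg_right h3.le (by positivity)
      have h6 : ((r / 4) ^ 2 * (1 - Real.cos e)) * (8 / r ^ 2) = (1 - Real.cos e) / 2 := by
        field_simp; ring
      linarith
    have h3 : ‖(inner ℂ (lift n N hn hN a k z) (lift n N hn hN a k p) : ℂ)‖ /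
        (‖lift n N hn hN a k z‖ * ‖lift n N hn hN a k p‖) ≤ 1 :=
      div_le_one_of_le₀ (norm_inner_le_norm _ _) (by positivity)
    have h4 : fsDist (fam n N hn hN a k z) (fam n N hn hN a k p) < e := by
      unfold fam
      rw [fsDist_mk]
      have := Real.arccos_lt_arccos (by linarith [Real.neg_one_le_cos e]) h2 h3
      rwa [Real.arccos_cos he0.le hepi] at this
    exact h4.trans_le (min_le_left _ _)
  · refine ⟨(Function.update 0 ⟨0, by omega⟩ a, 0), ?_, Real.pi / 4, by positivity, ?_⟩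
    · refine ⟨fun i => ?_, by simp⟩
      by_cases hi : i = ⟨0, by omega⟩
      · subst hi
        simp only [Function.update_self, ha, Complex.norm_real]
        rw [Real.norm_of_nonneg (by linarith)]; linarith
      · simp [Function.update_of_ne hi]
    · intro δ hδ
      obtain ⟨k, hk⟩ := exists_nat_one_div_lt (lt_min hδ (half_pos hr))
      have hk1 : (1 : ℝ) / (k + 1) < δ := hk.trans_le (min_le_left _ _)
      have hk2 : (1 : ℝ) / (k + 1) < r / 2 := hk.trans_le (min_le_right _ _)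
      have hk0 : (0 : ℝ) < 1 / (k + 1) := by positivity
      refine ⟨fam n N hn hN a k, ⟨k, rfl⟩,
        (Function.update 0 ⟨0, by omega⟩ (a + ((1 / (k + 1) : ℝ) : ℂ)), 0), ?_, ?_, ?_⟩
      · refine ⟨fun i => ?_, by simp⟩
        by_cases hi : i = ⟨0, by omega⟩
        · subst hi
          simp only [Function.update_self, ha]
          rw [← Complex.ofReal_add, Complex.norm_real, Real.norm_of_nonneg (by linarith)]
          linarith
        · simp [Function.update_of_ne hi]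
      · rw [Prod.mk_sub_mk, ← Function.update_sub, Prod.norm_mk]
        refine max_lt ?_ (by simpa using hδ)
        rw [pi_norm_lt_iff hδ]
        intro i
        by_cases hi : i = ⟨0, by omega⟩
        · subst hi
          simp only [Function.update_self, add_sub_cancel_left, Complex.norm_real]
          rwa [Real.norm_of_nonneg hk0.le]
        · simpa [Function.update_of_ne hi] using hδ
      · unfold fam
        rw [fsDist_mk, lift_inner]
        have hk3 : ((1 : ℂ) / (k + 1)) = ((1 / (k + 1) : ℝ) : ℂ) := by push_cast; ring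
        set t : ℝ := 1 / (k + 1) with ht
        have hx : ‖lift n N hn hN a k (Function.update 0 ⟨0, by omega⟩ (a + (t : ℂ)), 0)‖ =
            Real.sqrt 2 * t := by
          have h1 := lift_norm_sq n N hn hN a k (Function.update 0 ⟨0, by omega⟩ (a + (t : ℂ)), 0)
          simp only [Function.update_self, add_sub_cancel_left, Complex.norm_real, norm_zero,
            ← ht] at h1
          rw [Real.norm_of_nonneg hk0.le] at h1
          have h2 : (Real.sqrt 2 * t) ^ 2 = t ^ 2 + 0 ^ 2 + t ^ 2 := by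
            rw [mul_pow, Real.sq_sqrt (by norm_num)]; ring
          rw [← h2] at h1
          exact (sq_eq_sq₀ (norm_nonneg _) (by positivity)).mp h1
        have hy : ‖lift n N hn hN a k (Function.update 0 ⟨0, by omega⟩ a, 0)‖ = t := by
          have h1 := lift_norm_sq n N hn hN a k (Function.update 0 ⟨0, by omega⟩ a, 0)
          simp only [Function.update_self, sub_self, norm_zero, ← ht] at h1
          have h2 : t ^ 2 = 0 ^ 2 + 0 ^ 2 + t ^ 2 := by ring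
          rw [← h2] at h1
          exact (sq_eq_sq₀ (norm_nonneg _) hk0.le).mp h1
        rw [hx, hy, hk3]
        simp only [Function.update_self, add_sub_cancel_left, sub_self, mul_zero, zero_add,
          Complex.conj_ofReal]
        rw [← Complex.ofReal_mul, Complex.norm_real, Real.norm_of_nonneg (by positivity)]
        have h3 : t * t / (Real.sqrt 2 * t * t) = Real.cos (Real.pi / 4) := by
          rw [Real.cos_pi_div_four]
          have h4 : Real.sqrt 2 * Real.sqrt 2 = 2 := Real.mul_self_sqrt (by norm_num)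
          have h5 : 0 < Real.sqrt 2 := by positivity
          rw [div_eq_div_iff (by positivity) (by norm_num)]
          nlinarith
        rw [h3, Real.arccos_cos (by positivity) (by linarith [Real.pi_pos])]

end Pool.Agent.Results.MP_7ec995_an.ProjectiveSpace
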